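import Pool.Agent.H79.QN.Stmts4

/-! Row ANA of board qn. -/

set_option autoImplicit false

namespace Pool.Agent.H79.QN

namespace ANAAux

open Set Topology Filter

theorem it_eq {φ : ℝ → ℝ} (m : ℕ) : deriv^[m] φ = iteratedDeriv m φ := by
  rw [iteratedDeriv_eq_iterate]

theorem ana_it {φ : ℝ → ℝ} {s : Set ℝ} (h : AnalyticOnNhd ℝ φ s) (m : ℕ) :
    AnalyticOnNhd ℝ (iteratedDeriv m φ) s := by
  rw [← it_eq]
  exact h.iterated_deriv m

theorem it_add (φ : ℝ → ℝ) (m n : ℕ) :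
    iteratedDeriv m (iteratedDeriv n φ) = iteratedDeriv (m + n) φ := by
  rw [← it_eq, ← it_eq, ← it_eq, ← Function.iterate_add_apply]

/-- all derivatives of order `≥ 2` vanish at a point: `φ''` vanishes on the interval -/
theorem second_zero {φ : ℝ → ℝ} (h : AnalyticOnNhd ℝ φ (Icc (-1) 1)) {x0 : ℝ}
    (hx : x0 ∈ Icc (-1 : ℝ) 1) (h0 : ∀ j : ℕ, 2 ≤ j → iteratedDeriv j φ x0 = 0) :
    ∀ x ∈ Icc (-1 : ℝ) 1, iteratedDeriv 2 φ x = 0 := by
  have hψ := ana_it h 2
  have htop : analyticOrderAt (iteratedDeriv 2 φ) x0 = ⊤ := by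
    rw [ENat.eq_top_iff_forall_ge]
    intro n
    rw [natCast_le_analyticOrderAt_iff_iteratedDeriv_eq_zero (hψ x0 hx)]
    intro i _
    rw [it_add]
    exact h0 _ (by omega)
  rw [analyticOrderAt_eq_top] at htop
  have h1 := hψ.eqOn_zero_of_preconnected_of_eventuallyEq_zero isPreconnected_Icc hx htop
  intro x hx'
  exact h1 hx'

/-- vanishing second derivative: affine on the interval -/
theorem affine {φ : ℝ → ℝ} (h : AnalyticOnNhd ℝ φ (Icc (-1) 1))
    (h2 : ∀ x ∈ Icc (-1 : ℝ) 1, iteratedDeriv 2 φ x = 0) :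
    ∃ α β : ℝ, ∀ x ∈ Icc (-1 : ℝ) 1, φ x = α * x + β := by
  have hd : AnalyticOnNhd ℝ (deriv φ) (Icc (-1) 1) := h.deriv
  have e2 : iteratedDeriv 2 φ = deriv (deriv φ) := by
    rw [← it_eq]; rfl
  have h3 : ∀ x ∈ Icc (-1 : ℝ) 1, deriv φ x = deriv φ (-1) := by
    apply constant_of_has_deriv_right_zero hd.continuousOn
    intro x hx
    have hx' := Ico_subset_Icc_self hx
    have h4 := (hd x hx').differentiableAt.hasDerivAt
    have h5 := h2 x hx'
    rw [e2] at h5
    rw [h5] at h4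
    exact h4.hasDerivWithinAt
  refine ⟨deriv φ (-1), φ (-1) + deriv φ (-1), ?_⟩
  have h6 : ∀ x ∈ Icc (-1 : ℝ) 1, φ x - deriv φ (-1) * x = φ (-1) - deriv φ (-1) * (-1) := by
    apply constant_of_has_deriv_right_zero (f := fun x => φ x - deriv φ (-1) * x)
    · exact h.continuousOn.sub (continuousOn_const.mul continuousOn_id)
    · intro x hx
      have hx' := Ico_subset_Icc_self hx
      have h4 := (h x hx').differentiableAt.hasDerivAt
      have h5 : HasDerivAt (fun x => φ x - deriv φ (-1) * x) (deriv φ x - deriv φ (-1) * 1) x :=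
        h4.sub ((hasDerivAt_id x).const_mul _)
      rw [h3 x hx', mul_one, sub_self] at h5
      exact h5.hasDerivWithinAt
  intro x hx
  have := h6 x hx
  linarith

end ANAAux

open ANAAux in
theorem ana : S_ANA := by
  intro φ h hna
  have hu : UniqueDiffOn ℝ (Set.Icc (-1 : ℝ) 1) := uniqueDiffOn_Icc (by norm_num)
  have h1 : ∀ x ∈ Set.Icc (-1 : ℝ) 1, ∃ j : ℕ, 2 ≤ j ∧ iteratedDeriv j φ x ≠ 0 := by
    intro x hx
    by_contra hc
    push Not at hc
    exact hna (affine h (second_zero h hx hc))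
  choose! j hj2 hjn using h1
  obtain ⟨t, ht, hcov⟩ := isCompact_Icc.elim_nhds_subcover
    (fun x => {y | iteratedDeriv (j x) φ y ≠ 0}) (fun x hx =>
      ((ana_it h (j x)) x hx).continuousAt.eventually_ne (hjn x hx))
  refine ⟨2 + t.sup j, by omega, fun x hx => ?_⟩
  have hx' := hcov hx
  simp only [Set.mem_iUnion, Set.mem_ofPred_eq] at hx'
  obtain ⟨y, hy, hne⟩ := hx'
  refine ⟨j y, hj2 y (ht y hy), (Finset.le_sup hy).trans (by omega), ?_⟩
  rw [iteratedDerivWithin_eq_iteratedDeriv hu ((h x hx).contDiffAt) hx]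
  exact hne

end Pool.Agent.H79.QN
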